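import Pool.Agent.TH780.FR.Final

set_option autoImplicit false

/-!
# The flash-rainbow numbers satisfy `f(l, k) = o(k) l^(k-1)` uniformly in `l`

The edges of the complete graph on `n` linearly ordered vertices are coloured with any number of colours.
An `l`-flash is a monotone path with `l` edges of one colour, a `k`-rainbow is a monotone path with `k` edges
of pairwise distinct colours, and `f(l, k)` is the least integer such that for every `n > f(l, k)` every
colouring has an `l`-flash or a `k`-rainbow. We prove that there is a function `φ` with `φ(k) / k → 0` such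
that `f(l, k) ≤ φ(k) l^(k-1)` for all positive integers `l, k`. This settles Q1 of MP_f298ee_co.
-/

open Filter

namespace Pool.Agent.Results.MP_f298ee_co.FlashRainbow

/-- The colouring `c` of the edges of the complete graph on the ordered vertex set `Fin n` has an `l`-flash:
vertices `x 0 < x 1 < ... < x l` such that all the edges `x i, x (i+1)` have the same colour. (Values of `c` on
the diagonal play no role.) -/
def HasFlash {n : ℕ} (c : Sym2 (Fin n) → ℕ) (l : ℕ) : Prop :=
  ∃ x : Fin (l + 1) → Fin n, StrictMono x ∧
    ∀ i j : Fin l, c s(x i.castSucc, x i.succ) = c s(x j.castSucc, x j.succ)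

/-- The colouring `c` has a `k`-rainbow: vertices `y 0 < y 1 < ... < y k` such that the edges `y i, y (i+1)`
have pairwise distinct colours. -/
def HasRainbow {n : ℕ} (c : Sym2 (Fin n) → ℕ) (k : ℕ) : Prop :=
  ∃ y : Fin (k + 1) → Fin n, StrictMono y ∧
    ∀ i j : Fin k, i ≠ j → c s(y i.castSucc, y i.succ) ≠ c s(y j.castSucc, y j.succ)

/-- For every `n > N` every colouring of the edges of the complete graph on `n` ordered vertices has an
`l`-flash or a `k`-rainbow. -/
def Forces (l k N : ℕ) : Prop := ∀ n > N, ∀ c : Sym2 (Fin n) → ℕ, HasFlash c l ∨ HasRainbow c k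

/-- The number `f(l, k)`: the least `N` with `Forces l k N`. -/
noncomputable def f (l k : ℕ) : ℕ := sInf {N : ℕ | Forces l k N}

/-- For all positive integers `l, k` the least integer `f(l, k)` exists, and there is a function `φ` with
`φ(k) / k → 0` as `k → ∞` such that `f(l, k) ≤ φ(k) l^(k-1)` for all positive integers `l, k`. -/
theorem result : (∀ l k : ℕ, 1 ≤ l → 1 ≤ k → IsLeast {N : ℕ | Forces l k N} (f l k)) ∧
    ∃ φ : ℕ → ℝ, Tendsto (fun k : ℕ => φ k / k) atTop (nhds 0) ∧
      ∀ l k : ℕ, 1 ≤ l → 1 ≤ k → (f l k : ℝ) ≤ φ k * (l : ℝ) ^ (k - 1) :=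
  ⟨fun l k hl hk => ⟨Pool.Agent.TH780.FR.final.1 l k hl hk, fun _ h => Nat.sInf_le h⟩,
    Pool.Agent.TH780.FR.final.2⟩

end Pool.Agent.Results.MP_f298ee_co.FlashRainbow
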